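import Pool.Agent.T6.H20.LS.Line

/-!
Closed subvarieties of varieties given by sums of few high powers of linear forms which contain no
planes.
-/

set_option autoImplicit false

open FF Pool.Agent.W603.LV MvPolynomial Pool.Agent.W602.GT

namespace Pool.Agent.T6.H20.LS

variable {k K : Type} [Field k] [Field K] [Algebra k K] {n : ℕ}

/-- specialisation of linearly independent vectors -/
theorem specialise_span [IsAlgClosed k] {m : ℕ} (v : Fin m → Fin (n + 1) → K)
    (hv : LinearIndependent K v) (H : MvPolynomial (Fin m × Fin (n + 1)) k)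
    (hH : aeval (fun q : Fin m × Fin (n + 1) => v q.1 q.2) H ≠ 0) :
    ∃ a : Fin m → Fin (n + 1) → k, LinearIndependent k a ∧
      aeval (fun q : Fin m × Fin (n + 1) => a q.1 q.2) H ≠ 0 ∧
      ∀ p : MvPolynomial (Fin m × Fin (n + 1)) k,
        aeval (fun q : Fin m × Fin (n + 1) => v q.1 q.2) p = 0 →
        aeval (fun q : Fin m × Fin (n + 1) => a q.1 q.2) p = 0 := by
  classical
  have hinj : Function.Injective (Fintype.linearCombination K v) :=
    hv.fintypeLinearCombination_injective
  obtain ⟨g, hg⟩ := LinearMap.exists_leftInverse_of_injective _ (LinearMap.ker_eq_bot.2 hinj)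
  let u : Fin m → Fin (n + 1) → K := fun j i => g (Pi.single i 1) j
  have hu : ∀ j j', ∑ i, u j i * v j' i = if j = j' then 1 else 0 := by
    intro j j'
    have h1 : v j' = ∑ i, v j' i • (Pi.single i (1 : K) : Fin (n + 1) → K) := by
      funext l
      simp [Finset.sum_apply, Pi.single_apply]
    have h2 : Fintype.linearCombination K v (Pi.single j' 1) = v j' := by
      simp [Fintype.linearCombination_apply, Pi.single_apply]
    have h3 : g (v j') = Pi.single j' 1 := by
      rw [← h2]
      exact LinearMap.congr_fun hg _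
    have h4 : g (v j') j = ∑ i, u j i * v j' i := by
      rw [h1, map_sum, Finset.sum_apply]
      refine Finset.sum_congr rfl fun i _ => ?_
      rw [map_smul, Pi.smul_apply, smul_eq_mul, mul_comm, ← h1]
    rw [← h4, h3, Pi.single_apply]
  let z : (Fin m × Fin (n + 1)) ⊕ (Fin m × Fin (n + 1)) → K :=
    Sum.elim (fun q => v q.1 q.2) (fun q => u q.1 q.2)
  have hz : ∀ p : MvPolynomial (Fin m × Fin (n + 1)) k, aeval z (rename Sum.inl p) =
      aeval (fun q : Fin m × Fin (n + 1) => v q.1 q.2) p := by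
    intro p
    rw [aeval_rename]
    rfl
  obtain ⟨z0, hz0, hrel⟩ := specialise z (rename Sum.inl H) (by rw [hz]; exact hH)
  have hz0' : ∀ p : MvPolynomial (Fin m × Fin (n + 1)) k, aeval z0 (rename Sum.inl p) =
      aeval (fun q : Fin m × Fin (n + 1) => z0 (Sum.inl (q.1, q.2))) p := by
    intro p
    rw [aeval_rename]
    rfl
  refine ⟨fun j i => z0 (Sum.inl (j, i)), ?_, ?_, ?_⟩
  · have hb : ∀ j j', ∑ i, z0 (Sum.inr (j, i)) * z0 (Sum.inl (j', i)) = if j = j' then 1 else 0 := by
      intro j j'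
      have h1 := hrel (∑ i, X (Sum.inr (j, i)) * X (Sum.inl (j', i)) -
        C (if j = j' then (1 : k) else 0)) (by
          rw [map_sub, map_sum]
          simp only [map_mul, aeval_X, aeval_C]
          change ∑ i, u j i * v j' i - _ = 0
          rw [hu]
          split_ifs <;> simp)
      rw [map_sub, map_sum] at h1
      simp only [map_mul, aeval_X, aeval_C, Algebra.algebraMap_self, RingHom.id_apply] at h1
      exact sub_eq_zero.1 h1
    rw [Fintype.linearIndependent_iff]
    intro c hc j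
    have h1 : ∑ i, z0 (Sum.inr (j, i)) * (∑ j', c j' • fun i => z0 (Sum.inl (j', i))) i = 0 := by
      rw [hc]
      simp
    simp only [Finset.sum_apply, Pi.smul_apply, smul_eq_mul, Finset.mul_sum] at h1
    rw [Finset.sum_comm] at h1
    have h2 : ∀ j', ∑ i, z0 (Sum.inr (j, i)) * (c j' * z0 (Sum.inl (j', i))) =
        if j = j' then c j' else 0 := by
      intro j'
      have h3 : ∑ i, z0 (Sum.inr (j, i)) * (c j' * z0 (Sum.inl (j', i))) =
          c j' * ∑ i, z0 (Sum.inr (j, i)) * z0 (Sum.inl (j', i)) := by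
        rw [Finset.mul_sum]
        exact Finset.sum_congr rfl fun i _ => by ring
      rw [h3, hb]
      split_ifs <;> simp
    simp only [h2] at h1
    simpa using h1
  · rw [hz0'] at hz0
    exact hz0
  · intro p hp
    have h1 := hrel (rename Sum.inl p) (by rw [hz]; exact hp)
    rwa [hz0'] at h1

/-- the substitution of a linear combination of vectors -/
noncomputable def subst {m : ℕ} (c : Fin m → k) : MvPolynomial (Fin (n + 1)) k →ₐ[k]
    MvPolynomial (Fin m × Fin (n + 1)) k :=
  aeval fun i => ∑ j, C (c j) * X (j, i)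

theorem eval_subst {m : ℕ} (c : Fin m → k) (v : Fin m → Fin (n + 1) → K)
    (G : MvPolynomial (Fin (n + 1)) k) :
    aeval (fun q : Fin m × Fin (n + 1) => v q.1 q.2) (subst c G) =
      val (fun i => ∑ j, algebraMap k K (c j) * v j i) G := by
  unfold subst val
  rw [← AlgHom.comp_apply]
  congr 1
  apply MvPolynomial.algHom_ext
  intro i
  simp

/-- The variety `{F = 0}` contains a plane. -/
def HasPlane {ι : Type} (F : ι → MvPolynomial (Fin (n + 1)) k) : Prop :=
  ∃ a : Fin 3 → Fin (n + 1) → k, LinearIndependent k a ∧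
    ∀ (c : Fin 3 → k) (e : ι), val (∑ j, c j • a j) (F e) = 0

/-- forms which vanish on the points vanish on the points over extensions -/
theorem val_of_cone [IsAlgClosed k] {κ : Type} {Φ : κ → MvPolynomial (Fin (n + 1)) k}
    {G : MvPolynomial (Fin (n + 1)) k} (h : ∀ x ∈ Cone Φ, val x G = 0) {y : Fin (n + 1) → K}
    (hy : y ≠ 0) (hyΦ : ∀ e, val y (Φ e) = 0) : val y G = 0 := by
  by_contra hne
  obtain ⟨j0, hj0⟩ := Function.ne_iff.1 hy
  have hj0' : y j0 ≠ 0 := hj0
  obtain ⟨z0, h1, h2⟩ := specialise y (G * X j0) (by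
    rw [map_mul, aeval_X]
    exact mul_ne_zero hne hj0')
  rw [map_mul, aeval_X] at h1
  refine left_ne_zero_of_mul h1 (h z0 ⟨fun h0 => right_ne_zero_of_mul h1 ?_, fun e => h2 _ (hyΦ e)⟩)
  rw [h0]
  rfl

theorem coords_smul {y : Fin (n + 1) → K} {c : K} (hc : c ≠ 0) :
    coords k (fun i => c * y i) = coords k y := by
  unfold coords
  congr 1
  ext z
  constructor
  · rintro ⟨i, j, hj, rfl⟩
    refine ⟨i, j, right_ne_zero_of_mul hj, ?_⟩
    field_simp
  · rintro ⟨i, j, hj, rfl⟩
    refine ⟨i, j, mul_ne_zero hc hj, ?_⟩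
    field_simp

variable [CharZero k] [IsAlgClosed k]

/-- **Lines.** The closed subvarieties which are not of general type of a variety without planes,
which is given by sums of few high powers of linear forms, are covered by lines. -/
theorem alg_sub_line {ι : Type} {F : ι → MvPolynomial (Fin (n + 1)) k}
    {s N : ℕ} (hF : ∀ e, IsPowSum s N (F e)) (hN1 : 1 ≤ N) (hN : n * ((s + 1) * tn (s - 1)) ≤ N)
    (hpl : ¬ HasPlane F) {κ : Type} {Φ : κ → MvPolynomial (Fin (n + 1)) k}
    (hΦ : ∀ e, IsForm (Φ e)) (hsub : Cone Φ ⊆ Cone F) : SpAlg Φ ⊆ SpLine Φ := by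
  rintro x ⟨hx, h⟩
  refine ⟨hx, fun G hG hL => h G hG ?_⟩
  intro K _ _ w y hw hy hgt
  have hK : CharZero K := charZero_of_injective_algebraMap (algebraMap k K).injective
  obtain ⟨j0, hj0⟩ := Function.ne_iff.1 hy.ne
  have hj0' : y j0 ≠ 0 := hj0
  have hc0 : (y j0)⁻¹ ≠ 0 := inv_ne_zero hj0'
  obtain ⟨y', hy'⟩ : ∃ y' : Fin (n + 1) → K, y' = fun i => (y j0)⁻¹ * y i := ⟨_, rfl⟩
  have hy0 : y' j0 = 1 := by
    rw [hy']
    exact inv_mul_cancel₀ hj0'
  have hzero : ∀ G : MvPolynomial (Fin (n + 1)) k, IsForm G → (val y' G = 0 ↔ val y G = 0) := by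
    rintro G ⟨d, hd⟩
    rw [hy', val_smul hd]
    constructor
    · intro h0
      exact (mul_eq_zero.1 h0).resolve_left (pow_ne_zero _ hc0)
    · intro h0
      rw [h0, mul_zero]
  have hgen : Algebra.IsAlgebraic (coords k y') K := by
    rw [hy', coords_smul hc0, hy.gen]
    infer_instance
  have hne : y' ≠ 0 := by
    intro h0
    rw [h0] at hy0
    exact zero_ne_one hy0
  have hmem : ∀ e, val y' (Φ e) = 0 := fun e => (hzero _ (hΦ e)).2 (hy.mem e)
  obtain ⟨D, hD, hspan⟩ := orbit hF hN1 hN hw hy.dim hne hgen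
    (fun e => val_of_cone (fun x hx => (hsub hx).2 e) hne hmem) hgt
  obtain ⟨i, j, hij⟩ := moves hgen hD
  obtain ⟨j1, hj1⟩ : ∃ j1, D (y' j1) ≠ 0 := by
    by_contra hcon
    push Not at hcon
    apply hij
    rw [hcon, hcon, mul_zero, mul_zero, sub_zero]
  rw [← hzero G hG]
  rcases dep_or D hy0 hj1 with hli | hdep
  · exfalso
    obtain ⟨a, ha, -, hrel⟩ := specialise_span (k := k) _ hli 1 (by rw [map_one]; exact one_ne_zero)
    refine hpl ⟨a, ha, fun c e => ?_⟩
    have h1 := hrel (subst c (F e)) ((eval_subst c (fun (q : Fin 3) i => D^[q] (y' i)) (F e)).trans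
      (hspan 3 (fun j => algebraMap k K (c j)) e))
    rw [eval_subst] at h1
    rw [← h1]
    congr 1
  · refine mem_closure y' (fun i => D (y' i)) ⟨i, j, hij⟩ (fun c c' e => ?_) hL
    exact line_case D hj1 hdep (hΦ e) (hmem e) c c'

end Pool.Agent.T6.H20.LS
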