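import Pool.Agent.T6.H20.LS.Orbit
import Pool.Agent.W602.GT.SpThm

/-!
The case of a line: a form which vanishes at a point moving on a line, which is constant along a
vector field, vanishes on the line.
-/

set_option autoImplicit false

open FF Pool.Agent.W603.LV MvPolynomial Pool.Agent.W602.GT

namespace Pool.Agent.T6.H20.LS

variable {k K : Type} [Field k] [Field K] [Algebra k K] {n : ℕ}

/-- the constants of a derivation -/
def cst (D : Derivation k K K) : IntermediateField k K where
  carrier := {x | D x = 0}
  mul_mem' := by
    intro a b ha hb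
    have ha' : D a = 0 := ha
    have hb' : D b = 0 := hb
    change D (a * b) = 0
    rw [D.leibniz, ha', hb', smul_zero, smul_zero, add_zero]
  add_mem' := by
    intro a b ha hb
    have ha' : D a = 0 := ha
    have hb' : D b = 0 := hb
    change D (a + b) = 0
    rw [map_add, ha', hb', add_zero]
  algebraMap_mem' := fun r => D.map_algebraMap r
  inv_mem' := by
    intro a ha
    have ha' : D a = 0 := ha
    change D a⁻¹ = 0
    rw [D.leibniz_inv, ha', smul_zero]

theorem mem_cst {D : Derivation k K K} {x : K} : x ∈ cst D ↔ D x = 0 := Iff.rfl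

/-- the derivation over its constants -/
def overCst (D : Derivation k K K) : Derivation (cst D) K K where
  toFun := D
  map_add' := map_add D
  map_smul' := by
    intro c x
    have h : D (c : K) = 0 := c.2
    change D ((c : K) * x) = (c : K) * D x
    rw [D.leibniz, h, smul_zero, add_zero, smul_eq_mul]
  map_one_eq_zero' := D.map_one_eq_zero
  leibniz' := D.leibniz

theorem transcendental_of_ne [CharZero k] (D : Derivation k K K) {t : K} (ht : D t ≠ 0) :
    Transcendental (cst D) t := by
  have hK : CharZero K := charZero_of_injective_algebraMap (algebraMap k K).injective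
  have hC : CharZero (cst D) := charZero_of_injective_algebraMap (algebraMap k (cst D)).injective
  intro halg
  have hint : IsIntegral (cst D) t := halg.isIntegral
  have hsep : (minpoly (cst D) t).Separable := (minpoly.irreducible hint).separable
  have h1 := (overCst D).map_aeval (minpoly (cst D) t) t
  rw [minpoly.aeval, map_zero] at h1
  have h2 : Polynomial.aeval t (Polynomial.derivative (minpoly (cst D) t)) ≠ 0 :=
    hsep.aeval_derivative_ne_zero (minpoly.aeval _ _)
  exact ht ((smul_eq_zero.1 h1.symm).resolve_left h2)

/-- a polynomial in `T` given by a form -/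
theorem exists_poly {C : Type} [Field C] [Algebra k C] (a b : Fin (n + 1) → C)
    (G : MvPolynomial (Fin (n + 1)) k) :
    ∃ p : Polynomial C, ∀ (L : Type) [Field L] [Algebra k L] [Algebra C L] [IsScalarTower k C L]
      (T : L), Polynomial.aeval T p =
        val (fun i => algebraMap C L (a i) + T * algebraMap C L (b i)) G := by
  refine ⟨MvPolynomial.aeval (fun i => Polynomial.C (a i) + Polynomial.X * Polynomial.C (b i)) G,
    fun L _ _ _ _ T => ?_⟩
  unfold val
  have h1 : ((Polynomial.aeval T : Polynomial C →ₐ[C] L).restrictScalars k).comp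
      (MvPolynomial.aeval fun i => Polynomial.C (a i) + Polynomial.X * Polynomial.C (b i)) =
      MvPolynomial.aeval (fun i => algebraMap C L (a i) + T * algebraMap C L (b i)) := by
    apply MvPolynomial.algHom_ext
    intro i
    simp
    exact mul_comm _ _
  exact congrArg (fun φ => φ G) h1

/-- a form with infinitely many zeros on a line vanishes on it -/
theorem line_zero {G : MvPolynomial (Fin (n + 1)) k} (hG : IsForm G) (a b : Fin (n + 1) → K)
    (hinf : {T : K | val (fun i => a i + T * b i) G = 0}.Infinite) (c c' : K) :
    val (fun i => c * a i + c' * b i) G = 0 := by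
  have hK : Infinite K := hinf.to_subtype.of_injective _ Subtype.val_injective
  obtain ⟨d, hd⟩ := hG
  have key : ∀ (a b : Fin (n + 1) → K), {T : K | val (fun i => a i + T * b i) G = 0}.Infinite →
      ∀ T : K, val (fun i => a i + T * b i) G = 0 := by
    intro a b hinf T
    obtain ⟨p, hp⟩ := exists_poly (k := k) a b G
    have hp0 : p = 0 := by
      apply Polynomial.eq_zero_of_infinite_isRoot
      refine Set.Infinite.mono (fun t ht => ?_) hinf
      have h2 := hp K t
      rw [Polynomial.coe_aeval_eq_eval] at h2
      change Polynomial.eval t p = 0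
      rw [h2]
      exact ht
    have h2 := hp K T
    rw [hp0, map_zero] at h2
    rw [h2]
    rfl
  have h1 := key a b hinf
  have h2 : ∀ S : K, val (fun i => b i + S * a i) G = 0 := by
    refine key b a ?_
    refine Set.Infinite.mono (s := {t : K | t ≠ 0}) (fun t ht => ?_) ?_
    · have ht0 : t ≠ 0 := ht
      change val (fun i => b i + t * a i) G = 0
      have h3 := val_smul hd t (fun i => a i + t⁻¹ * b i)
      rw [h1, mul_zero] at h3
      rw [← h3]
      congr 1
      funext i
      field_simp
      ring
    · have h1 : ({t : K | t ≠ 0}) = ({0} : Set K)ᶜ := by ext; simp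
      rw [h1]
      exact (Set.finite_singleton 0).infinite_compl
  by_cases hc : c' = 0
  · have h3 := val_smul hd c (fun i => a i + 0 * b i)
    rw [h1, mul_zero] at h3
    rw [← h3]
    congr 1
    funext i
    rw [hc]
    ring
  · have h3 := val_smul hd c' (fun i => b i + (c / c') * a i)
    rw [h2, mul_zero] at h3
    rw [← h3]
    congr 1
    funext i
    field_simp
    ring

theorem line_case [CharZero k] (D : Derivation k K K) {y : Fin (n + 1) → K} {j1 : Fin (n + 1)}
    (h1 : D (y j1) ≠ 0) (hdep : ∀ i, D (D (y i)) * D (y j1) = D (D (y j1)) * D (y i))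
    {G : MvPolynomial (Fin (n + 1)) k} (hG : IsForm G) (hy : val y G = 0) (c c' : K) :
    val (fun l => c * y l + c' * D (y l)) G = 0 := by
  classical
  have hK : CharZero K := charZero_of_injective_algebraMap (algebraMap k K).injective
  have hv : ∀ i, D (D (y i) / D (y j1)) = 0 := by
    intro i
    rw [div_eq_mul_inv, D.leibniz, D.leibniz_inv]
    simp only [smul_eq_mul]
    field_simp
    linear_combination hdep i
  have hu : ∀ i, D (y i - y j1 * (D (y i) / D (y j1))) = 0 := by
    intro i
    rw [map_sub, D.leibniz, hv]
    simp only [smul_eq_mul]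
    field_simp
    ring
  let v : Fin (n + 1) → cst D := fun i => ⟨_, hv i⟩
  let u : Fin (n + 1) → cst D := fun i => ⟨_, hu i⟩
  obtain ⟨p, hp⟩ := exists_poly (k := k) u v G
  have hpt : Polynomial.aeval (y j1) p = 0 := by
    rw [hp K (y j1)]
    rw [← hy]
    congr 1
    funext i
    change y i - y j1 * (D (y i) / D (y j1)) + y j1 * (D (y i) / D (y j1)) = y i
    ring
  have hp0 : p = 0 := by
    by_contra hne
    exact transcendental_of_ne D h1 ⟨p, hne, hpt⟩
  have hall : ∀ T : K, val (fun i => (y i - y j1 * (D (y i) / D (y j1))) +
      T * (D (y i) / D (y j1))) G = 0 := by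
    intro T
    have h2 := hp K T
    rw [hp0, map_zero] at h2
    exact h2.symm
  have h3 := line_zero hG (fun i => y i - y j1 * (D (y i) / D (y j1)))
    (fun i => D (y i) / D (y j1)) (by
      have : {T : K | val (fun i => (y i - y j1 * (D (y i) / D (y j1))) +
        T * (D (y i) / D (y j1))) G = 0} = Set.univ := Set.eq_univ_of_forall hall
      rw [this]
      exact Set.infinite_univ) c (c * y j1 + c' * D (y j1))
  rw [← h3]
  congr 1
  funext l
  field_simp
  ring

/-- the relation of three vectors -/
theorem dep_or (D : Derivation k K K) {y : Fin (n + 1) → K} {j0 j1 : Fin (n + 1)}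
    (h0 : y j0 = 1) (h1 : D (y j1) ≠ 0) :
    LinearIndependent K (fun (q : Fin 3) (i : Fin (n + 1)) => D^[q] (y i)) ∨
      ∀ i, D (D (y i)) * D (y j1) = D (D (y j1)) * D (y i) := by
  rw [or_iff_not_imp_left]
  intro hli i
  rw [Fintype.not_linearIndependent_iff] at hli
  obtain ⟨g, hg, q, hq⟩ := hli
  have hg' : ∀ l, g 0 * y l + g 1 * D (y l) + g 2 * D (D (y l)) = 0 := by
    intro l
    have h2 := congrFun hg l
    simpa [Fin.sum_univ_three] using h2
  have e0 : g 0 = 0 := by
    have h2 := hg' j0
    rw [h0, D.map_one_eq_zero, map_zero] at h2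
    simpa using h2
  have e2 : g 2 ≠ 0 := by
    intro h2
    have h3 := hg' j1
    rw [e0, h2] at h3
    have h4 : g 1 = 0 := by
      have : g 1 * D (y j1) = 0 := by linear_combination h3
      exact (mul_eq_zero.1 this).resolve_right h1
    apply hq
    fin_cases q
    · exact e0
    · exact h4
    · exact h2
  have f1 := hg' i
  have f2 := hg' j1
  rw [e0] at f1 f2
  apply mul_left_cancel₀ e2
  linear_combination (D (y j1)) * f1 - (D (y i)) * f2

end Pool.Agent.T6.H20.LS
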