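import Pool.Agent.W602.GT.War

/-!
The iterates of a vector field on a subvariety, which is not of general type, of a variety given by
sums of few high powers of linear forms: the variety contains their linear span.
-/

set_option autoImplicit false

open FF Pool.Agent.W603.LV MvPolynomial Pool.Agent.W602.GT

namespace Pool.Agent.T6.H20.LS

variable {k K : Type} [Field k] [Field K] [Algebra k K] {n : ℕ}

/-- iterates of a derivation on proportional elements -/
theorem iter_prop (D : Derivation k K K) {a b : K} (ha : a ≠ 0) (hb : b ≠ 0)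
    (h : D a * b = a * D b) (m : ℕ) : D^[m] a * b = a * D^[m] b := by
  have h1 : D (a / b) = 0 := by
    rw [div_eq_mul_inv, D.leibniz, D.leibniz_inv]
    simp only [smul_eq_mul]
    field_simp
    linear_combination h
  have key : ∀ m, D^[m] a = (a / b) * D^[m] b := by
    intro m
    induction m with
    | zero => simp only [Function.iterate_zero, id_eq]; field_simp
    | succ m ih =>
      rw [Function.iterate_succ_apply', Function.iterate_succ_apply', ih, D.leibniz, h1]
      simp only [smul_eq_mul, mul_zero, add_zero]
  rw [key m]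
  field_simp

/-- **The linear span.** A subvariety of a variety given by sums of few high powers of linear
forms is of general type, or there is a nonzero vector field such that the variety contains the
linear span of the iterated derivatives of the generic point. -/
theorem orbit [IsAlgClosed k] [CharZero k] {ι : Type} {F : ι → MvPolynomial (Fin (n + 1)) k}
    {s N : ℕ} (hF : ∀ e, IsPowSum s N (F e)) (hN1 : 1 ≤ N) (hN : n * ((s + 1) * tn (s - 1)) ≤ N)
    {w : ℕ} (hw : 0 < w) (htr : Algebra.trdeg k K = w) {y : Fin (n + 1) → K} (hy : y ≠ 0)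
    (hgen : Algebra.IsAlgebraic (coords k y) K) (hyF : ∀ e, val y (F e) = 0)
    (hgt : ¬ GeneralType k K w) :
    ∃ D : Derivation k K K, D ≠ 0 ∧ ∀ (m : ℕ) (c : Fin m → K) (e : ι),
      val (fun l => ∑ j, c j * D^[j] (y l)) (F e) = 0 := by
  classical
  have hwn := dim_le hy hgen htr
  choose r d l hr hd hFe using hF
  have hK : CharZero K := charZero_of_injective_algebraMap (algebraMap k K).injective
  let L : ∀ e, Fin (r e) → (Fin (n + 1) → K) → K := fun e j x =>
    ∑ i, algebraMap k K (l e j i) * x i
  have hval : ∀ (x : Fin (n + 1) → K) e, val x (F e) = ∑ j, L e j x ^ d e := by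
    intro x e
    unfold val
    rw [hFe e, map_sum]
    refine Finset.sum_congr rfl fun j _ => ?_
    rw [map_pow, map_sum]
    simp only [map_mul, aeval_C, aeval_X]
    rfl
  have hd0 : ∀ e, 0 < d e := fun e => lt_of_lt_of_le hN1 (hd e)
  let J : ι → Type := fun e => {j : Fin (r e) // L e j y ≠ 0}
  let g : ∀ e, J e → K := fun e j => L e j.1 y ^ d e
  have hg : ∀ e j, g e j ≠ 0 := fun e j => pow_ne_zero _ j.2
  have hsub : ∀ (e : ι) (f : Fin (r e) → K), (∀ j, L e j y = 0 → f j = 0) →
      ∑ j, f j = ∑ j : J e, f j.1 := by
    intro e f hf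
    rw [← Finset.sum_subtype (Finset.univ.filter fun j => L e j y ≠ 0) (by simp) f]
    rw [Finset.sum_filter_of_ne]
    intro j _ hj h0
    exact hj (hf j h0)
  have hsum : ∀ e, ∑ j, g e j = 0 := by
    intro e
    rw [← hsub e (fun j => L e j y ^ d e) (fun j hj => by rw [hj, zero_pow (hd0 e).ne']), ← hval]
    exact hyF e
  have hcard : ∀ e, Fintype.card (J e) ≤ s := fun e =>
    (Fintype.card_subtype_le _).trans (by rw [Fintype.card_fin]; exact hr e)
  have hjump : ∀ P : Place k K, ¬ False → ∀ e (i j : J e), P.ord (g e i) = P.ord (g e j) ∨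
      ((w * ((s + 1) * tn (s - 1)) : ℕ) : ℤ) ≤ |P.ord (g e i) - P.ord (g e j)| := by
    intro P _ e i j
    change P.ord (L e i.1 y ^ d e) = P.ord (L e j.1 y ^ d e) ∨
      _ ≤ |P.ord (L e i.1 y ^ d e) - P.ord (L e j.1 y ^ d e)|
    rw [P.ord_pow, P.ord_pow]
    by_cases h : P.ord (L e i.1 y) = P.ord (L e j.1 y)
    · left; rw [h]
    · right
      rw [← mul_sub, abs_mul, Nat.abs_cast]
      have h1 : (1 : ℤ) ≤ |P.ord (L e i.1 y) - P.ord (L e j.1 y)| :=
        Int.one_le_abs (sub_ne_zero.2 h)
      have h2 : w * ((s + 1) * tn (s - 1)) ≤ d e :=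
        ((Nat.mul_le_mul_right _ hwn).trans hN).trans (hd e)
      have h3 : ((w * ((s + 1) * tn (s - 1)) : ℕ) : ℤ) ≤ d e := by exact_mod_cast h2
      have h4 : (0 : ℤ) ≤ d e := by positivity
      nlinarith
  rcases system hw htr g hg hsum hcard (fun _ => False) hjump with h | ⟨D, hD, hR⟩
  · exact absurd (general_of_log h) hgt
  · refine ⟨D, hD, fun m c e => ?_⟩
    obtain ⟨R, hRe, hRD, hRs⟩ := hR e
    have hLD : ∀ (q : ℕ) j, L e j (fun i => D^[q] (y i)) = D^[q] (L e j y) := by
      intro q j
      induction q with
      | zero => rfl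
      | succ q ih =>
        simp only [Function.iterate_succ_apply']
        rw [← ih]
        simp only [L]
        rw [map_sum]
        refine Finset.sum_congr rfl fun i _ => ?_
        rw [D.leibniz, D.map_algebraMap, smul_zero, add_zero, smul_eq_mul]
    have hLlin : ∀ j, L e j (fun l => ∑ q, c q * D^[q] (y l)) = ∑ q, c q * D^[q] (L e j y) := by
      intro j
      simp only [← hLD]
      simp only [L, Finset.mul_sum]
      rw [Finset.sum_comm]
      exact Finset.sum_congr rfl fun q _ => Finset.sum_congr rfl fun i _ => by ring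
    rw [hval]
    simp only [hLlin]
    have hit0 : ∀ q, D^[q] (0 : K) = 0 := fun q => by
      induction q with
      | zero => rfl
      | succ q ih => rw [Function.iterate_succ_apply', ih, map_zero]
    rw [hsub e (fun j => (∑ q, c q * D^[q] (L e j y)) ^ d e) (fun j hj => by
      rw [hj]
      simp only [hit0, mul_zero, Finset.sum_const_zero]
      exact zero_pow (hd0 e).ne')]
    have h1 := weighted_sum R hRe (g e) (fun j => (∑ q, c q * D^[q] (L e j.1 y) / L e j.1 y) ^ d e)
      (fun i j hij => by
        have h2 := hRD i j hij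
        have hi := i.2
        have hj := j.2
        have hde : (d e : K) ≠ 0 := by exact_mod_cast (hd0 e).ne'
        change D (L e i.1 y ^ d e) * L e j.1 y ^ d e = L e i.1 y ^ d e * D (L e j.1 y ^ d e) at h2
        have hpow : ∀ x : K, x ≠ 0 → D (x ^ d e) = d e * x ^ d e * (D x / x) := by
          intro x hx
          rw [D.leibniz_pow]
          obtain ⟨q, hq⟩ : ∃ q, d e = q + 1 := ⟨d e - 1, by have := hd0 e; omega⟩
          rw [hq]
          simp only [nsmul_eq_mul, smul_eq_mul, Nat.add_sub_cancel]
          field_simp
          ring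
        rw [hpow _ hi, hpow _ hj] at h2
        have h3 : D (L e i.1 y) / L e i.1 y = D (L e j.1 y) / L e j.1 y := by
          have h4 : (d e : K) * L e i.1 y ^ d e * L e j.1 y ^ d e ≠ 0 :=
            mul_ne_zero (mul_ne_zero hde (pow_ne_zero _ hi)) (pow_ne_zero _ hj)
          apply mul_left_cancel₀ h4
          linear_combination h2
        have h5 : D (L e i.1 y) * L e j.1 y = L e i.1 y * D (L e j.1 y) := by
          rw [div_eq_div_iff hi hj] at h3
          linear_combination h3
        congr 1
        refine Finset.sum_congr rfl fun q _ => ?_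
        rw [div_eq_div_iff hi hj]
        have h6 := iter_prop D hi hj h5 q
        linear_combination (c q) * h6) hRs
    refine Eq.trans (Finset.sum_congr rfl fun j _ => ?_) h1
    have hj := j.2
    change _ = _ * L e j.1 y ^ d e
    rw [← mul_pow]
    congr 1
    rw [Finset.sum_mul]
    refine Finset.sum_congr rfl fun q _ => ?_
    field_simp

end Pool.Agent.T6.H20.LS
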